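import Pool.Agent.Helper56.BR.Final
import Pool.Agent.Helper82.BR.LocNF

/-!
# The local input of `alg_br`
-/

set_option autoImplicit false

namespace Pool.Agent.Helper56.BR

theorem localSplit : Pool.Agent.Helper82.BR.LocalSplit :=
  fun hF _ _ _ _ _ _ hL _ _ _ hm hmf hf hq _ _ _ _ _ hA => local_split hF hL hm hmf hf hq hA

theorem locNF : Pool.Agent.Helper47.BR.LocNF := Pool.Agent.Helper82.BR.locNF_of localSplit

end Pool.Agent.Helper56.BR
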