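import Mathlib

/-!
# Block LOC of project BR: definitions

`LF F q p`: the complete ultrametric normed field `F` is discretely valued with uniformizer `p`
and its residue field has `q` elements. `NormOn F D nu`: `nu` is a multiplicative ultrametric
norm on the division algebra `D` which extends the norm of `F`.
-/

set_option autoImplicit false

namespace Pool.Agent.Helper56.BR

universe u v w

/-- `F` is discretely valued with uniformizer `p` and residue field of `q` elements -/
structure LF (F : Type u) [NontriviallyNormedField F] (q : ℕ) (p : F) : Prop where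
  one_lt : 1 < q
  q_lt : ‖(q : F)‖ < 1
  pos : 0 < ‖p‖
  lt_one : ‖p‖ < 1
  disc : ∀ x : F, x ≠ 0 → ∃ n : ℤ, ‖x‖ = ‖p‖ ^ n
  res : ∃ S : Finset F, S.card = q ∧ (∀ x ∈ S, ‖x‖ ≤ 1) ∧
    ∀ x : F, ‖x‖ ≤ 1 → ∃! s : F, s ∈ S ∧ ‖x - s‖ < 1

/-- a multiplicative ultrametric norm on `D` extending the norm of `F` -/
structure NormOn (F : Type u) [NontriviallyNormedField F] {D : Type v} [DivisionRing D]
    [Algebra F D] (nu : D → ℝ) : Prop where
  nonneg : ∀ x, 0 ≤ nu x
  eq_zero : ∀ x, nu x = 0 ↔ x = 0
  mul : ∀ x y, nu (x * y) = nu x * nu y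
  ext : ∀ c : F, nu (algebraMap F D c) = ‖c‖
  add : ∀ x y, nu (x + y) ≤ max (nu x) (nu y)
  /-- a power of every value is a value of `F` -/
  pow : ∀ x, ∃ c : F, nu x ^ Module.finrank F D = ‖c‖

/-- representations of degree `m` -/
abbrev Rep (K : Type u) (A : Type v) (L : Type w) [CommSemiring K] [Semiring A] [Algebra K A]
    [CommRing L] [Algebra K L] (m : ℕ) : Prop :=
  Nonempty (A →ₐ[K] Matrix (Fin m) (Fin m) L)

end Pool.Agent.Helper56.BR
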