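import Mathlib
import Pool.Agent.Helper56.BR.Defs

/-!
# The norm on a division algebra over a complete nonarchimedean field
-/

set_option autoImplicit false

namespace Pool.Agent.Helper56.BR

open Polynomial

section emb

variable {F D : Type*} [Field F] [DivisionRing D] [Algebra F D]

/-- the left module structure of `D` over a field `E` with a homomorphism to `D` -/
theorem norm_comp {E : Type*} [Field E] [Algebra F E] (φ : E →ₐ[F] D)
    (y : E) : Algebra.norm F (φ y) ^ Module.finrank F E
      = Algebra.norm F y ^ Module.finrank F D := by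
  letI : Module E D := Module.compHom D (φ : E →+* D)
  have hsm : ∀ (e : E) (x : D), e • x = φ e * x := fun _ _ => rfl
  haveI : IsScalarTower F E D := ⟨fun f e x => by
    rw [hsm, hsm, map_smul, smul_mul_assoc]⟩
  have h1 := LinearMap.det_restrictScalars (R := F) (S := E) (A := D)
    (f := LinearMap.lsmul E D y)
  have h2 : (LinearMap.lsmul E D y).restrictScalars F = LinearMap.mulLeft F (φ y) := by
    ext x
    simp [hsm]
  have h3 : LinearMap.det (LinearMap.lsmul E D y) = y ^ Module.finrank E D := by
    have : LinearMap.lsmul E D y = y • (LinearMap.id : D →ₗ[E] D) := by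
      ext x; simp
    rw [this, LinearMap.det_smul, LinearMap.det_id, mul_one]
  rw [h2, h3, map_pow] at h1
  have h4 : Algebra.norm F (φ y) = LinearMap.det (LinearMap.mulLeft F (φ y)) := by
    rw [Algebra.norm_apply]
    rfl
  rw [h4, h1, ← pow_mul, ← Module.finrank_mul_finrank F E D, mul_comm]

/-- the embedding of the field generated by one element -/
noncomputable def embOf (x : D) : AdjoinRoot (minpoly F x) →ₐ[F] D :=
  Ideal.Quotient.liftₐ _ (aeval x) (by
    intro a ha
    obtain ⟨b, rfl⟩ := Ideal.mem_span_singleton'.1 ha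
    rw [map_mul, minpoly.aeval, mul_zero])

theorem embOf_root (x : D) : embOf (F := F) x (AdjoinRoot.root (minpoly F x)) = x := by
  have h : embOf (F := F) x (AdjoinRoot.root (minpoly F x)) = aeval x (X : F[X]) :=
    Ideal.Quotient.lift_mk _ _ _
  rw [h, aeval_X]

theorem irreducible_minpoly [FiniteDimensional F D] (x : D) : Irreducible (minpoly F x) :=
  minpoly.irreducible (Algebra.IsIntegral.isIntegral x)

end emb

section nrm

variable {F D : Type*} [NontriviallyNormedField F] [IsUltrametricDist F] [CompleteSpace F]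
  [DivisionRing D] [Algebra F D] [FiniteDimensional F D]

/-- the norm -/
noncomputable def nu (F : Type*) {D : Type*} [NontriviallyNormedField F] [DivisionRing D]
    [Algebra F D] (x : D) : ℝ :=
  ‖Algebra.norm F x‖ ^ (1 / (Module.finrank F D : ℝ))

theorem nu_eq_of_pow {x : D} {r : ℝ} (hr : 0 ≤ r) {k : ℕ} (hk : k ≠ 0) {c : F}
    (hc : ‖c‖ = r ^ k) (h : ‖Algebra.norm F x‖ ^ k = ‖c‖ ^ Module.finrank F D) :
    nu F x = r := by
  have hn : Module.finrank F D ≠ 0 := Module.finrank_pos.ne'
  rw [hc, ← pow_mul, mul_comm, pow_mul] at h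
  have h1 : ‖Algebra.norm F x‖ = r ^ Module.finrank F D :=
    (pow_left_inj₀ (norm_nonneg _) (pow_nonneg hr _) hk).1 h
  rw [nu, h1, ← Real.rpow_natCast, ← Real.rpow_mul hr]
  rw [mul_one_div_cancel (by exact_mod_cast hn), Real.rpow_one]

/-- on a commutative subfield it is the spectral norm -/
theorem nu_emb {E : Type*} [Field E] [Algebra F E] [FiniteDimensional F E] (φ : E →ₐ[F] D)
    (y : E) : nu F (φ y) = spectralNorm F E y := by
  have hx : Irreducible (minpoly F (φ y)) := irreducible_minpoly (φ y)
  haveI : Fact (Irreducible (minpoly F (φ y))) := ⟨hx⟩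
  have hmin : minpoly F (φ y) = minpoly F y :=
    minpoly.algHom_eq φ (RingHom.injective (φ : E →+* D)) y
  have hint : IsIntegral F (φ y) := Algebra.IsIntegral.isIntegral _
  have h1 := norm_comp (embOf (F := F) (φ y)) (AdjoinRoot.root (minpoly F (φ y)))
  rw [embOf_root] at h1
  have hne := minpoly.ne_zero hint
  have h2 : Algebra.norm F (AdjoinRoot.root (minpoly F (φ y)))
      = (-1) ^ (minpoly F (φ y)).natDegree * (minpoly F (φ y)).coeff 0 := by
    have h3 := Algebra.PowerBasis.norm_gen_eq_coeff_zero_minpoly (AdjoinRoot.powerBasis hne)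
    rw [AdjoinRoot.minpoly_powerBasis_gen_of_monic (minpoly.monic hint)] at h3
    rw [AdjoinRoot.powerBasis_gen] at h3
    rw [h3, AdjoinRoot.powerBasis_dim]
  have hfr : Module.finrank F (AdjoinRoot (minpoly F (φ y))) = (minpoly F (φ y)).natDegree := by
    rw [(AdjoinRoot.powerBasis hne).finrank, AdjoinRoot.powerBasis_dim]
  have hdeg : (minpoly F (φ y)).natDegree ≠ 0 := (minpoly.natDegree_pos hint).ne'
  rw [hfr, h2] at h1
  have h4 := congrArg norm h1
  rw [norm_pow, norm_pow, norm_mul, norm_pow, norm_neg, norm_one, one_pow, one_mul] at h4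
  have h5 := spectralNorm.spectralNorm_eq_norm_coeff_zero_rpow (K := F) (L := E) y
  refine nu_eq_of_pow (spectralNorm_nonneg y) hdeg (c := (minpoly F (φ y)).coeff 0) ?_ h4
  rw [h5, hmin, ← Real.rpow_natCast, ← Real.rpow_mul (norm_nonneg _), one_div_mul_cancel,
    Real.rpow_one]
  rw [← hmin]
  exact_mod_cast hdeg

theorem nu_mul (x y : D) : nu F (x * y) = nu F x * nu F y := by
  rw [nu, nu, nu, map_mul, norm_mul, Real.mul_rpow (norm_nonneg _) (norm_nonneg _)]

theorem nu_one : nu F (1 : D) = 1 := by
  rw [nu, map_one, norm_one, Real.one_rpow]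

theorem nu_zero : nu F (0 : D) = 0 := by
  have h : Algebra.norm F (0 : D) = 0 := Algebra.norm_zero
  rw [nu, h, norm_zero, Real.zero_rpow]
  exact one_div_ne_zero (by exact_mod_cast Module.finrank_pos.ne')

theorem nu_nonneg (x : D) : 0 ≤ nu F x := Real.rpow_nonneg (norm_nonneg _) _

theorem nu_ne_zero {x : D} (hx : x ≠ 0) : nu F x ≠ 0 := by
  intro h
  have h1 : nu F (x * x⁻¹) = 0 := by rw [nu_mul, h, zero_mul]
  rw [mul_inv_cancel₀ hx, nu_one] at h1
  exact one_ne_zero h1

/-- ultrametric next to `1` -/
theorem nu_one_add (x : D) : nu F (1 + x) ≤ max 1 (nu F x) := by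
  have hx : Irreducible (minpoly F x) := irreducible_minpoly x
  haveI : Fact (Irreducible (minpoly F x)) := ⟨hx⟩
  haveI : FiniteDimensional F (AdjoinRoot (minpoly F x)) :=
    (AdjoinRoot.powerBasis (minpoly.ne_zero (Algebra.IsIntegral.isIntegral x))).finite
  have h1 := nu_emb (embOf (F := F) x) (1 + AdjoinRoot.root (minpoly F x))
  have h2 := nu_emb (embOf (F := F) x) (AdjoinRoot.root (minpoly F x))
  rw [map_add, map_one, embOf_root] at h1
  rw [embOf_root] at h2
  rw [h1, h2]
  have h3 := isNonarchimedean_spectralNorm (K := F) (L := AdjoinRoot (minpoly F x)) 1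
    (AdjoinRoot.root (minpoly F x))
  rwa [spectralNorm_one] at h3

theorem normOn : NormOn F (nu F (D := D)) where
  nonneg := nu_nonneg
  eq_zero x := ⟨fun h => by
    by_contra hx
    exact nu_ne_zero hx h, fun h => by rw [h, nu_zero]⟩
  mul := nu_mul
  ext c := by
    have h1 := Algebra.norm_algebraMap_of_basis (Module.finBasis F D) c
    rw [Fintype.card_fin] at h1
    have hn : Module.finrank F D ≠ 0 := Module.finrank_pos.ne'
    rw [nu, h1, norm_pow, ← Real.rpow_natCast, ← Real.rpow_mul (norm_nonneg _),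
      mul_one_div_cancel (by exact_mod_cast hn), Real.rpow_one]
  add x y := by
    rcases eq_or_ne x 0 with rfl | hx
    · rw [zero_add]; exact le_max_right _ _
    · have h1 : x + y = x * (1 + x⁻¹ * y) := by
        rw [mul_add, mul_one, mul_inv_cancel_left₀ hx]
      have h2 := nu_one_add (F := F) (x⁻¹ * y)
      have h3 : nu F y = nu F x * nu F (x⁻¹ * y) := by
        rw [← nu_mul, mul_inv_cancel_left₀ hx]
      rw [h1, nu_mul, h3]
      calc nu F x * nu F (1 + x⁻¹ * y) ≤ nu F x * max 1 (nu F (x⁻¹ * y)) :=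
            mul_le_mul_of_nonneg_left h2 (nu_nonneg x)
        _ = max (nu F x) (nu F x * nu F (x⁻¹ * y)) := by
            rw [mul_max_of_nonneg _ _ (nu_nonneg x), mul_one]
  pow x := ⟨Algebra.norm F x, by
    have hn : Module.finrank F D ≠ 0 := Module.finrank_pos.ne'
    rw [nu, ← Real.rpow_natCast, ← Real.rpow_mul (norm_nonneg _),
      one_div_mul_cancel (by exact_mod_cast hn), Real.rpow_one]⟩

/-- P1 -/
theorem exists_norm {F : Type*} [NontriviallyNormedField F] [IsUltrametricDist F]
    [CompleteSpace F] {D : Type*} [DivisionRing D] [Algebra F D] [FiniteDimensional F D] :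
    ∃ nu : D → ℝ, NormOn F nu := ⟨nu F, normOn⟩

end nrm

end Pool.Agent.Helper56.BR
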