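import Mathlib
import Pool.Agent.Helper56.BR.Norm

/-!
# Commutative subfields of a central division algebra of dimension `d ^ 2` have degree `≤ d`
-/

set_option autoImplicit false

namespace Pool.Agent.Helper56.BR

open Polynomial

variable {F D : Type*} [Field F] [DivisionRing D] [Algebra F D]

/-- independence of the two-sided multiplications -/
theorem two_sided_indep [Algebra.IsCentral F D] {ι : Type*} [Fintype ι]
    {e : ι → D} (he : LinearIndependent F e) (a : ι → D)
    (ha : ∀ x : D, ∑ i, a i * x * e i = 0) : a = 0 := by
  classical
  induction hn : (Finset.univ.filter fun i => a i ≠ 0).card using Nat.strong_induction_on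
    generalizing a with
  | _ n ih =>
  by_contra hne
  obtain ⟨j, hj⟩ : ∃ j, a j ≠ 0 := by
    by_contra hcon
    push Not at hcon
    exact hne (funext hcon)
  have hb : ∀ x : D, ∑ i, ((a j)⁻¹ * a i) * x * e i = 0 := by
    intro x
    have : ∑ i, ((a j)⁻¹ * a i) * x * e i = (a j)⁻¹ * ∑ i, a i * x * e i := by
      rw [Finset.mul_sum]
      refine Finset.sum_congr rfl fun i _ => ?_
      simp only [mul_assoc]
    rw [this, ha, mul_zero]
  have hc : ∀ y : D, (fun i => ((a j)⁻¹ * a i) * y - y * ((a j)⁻¹ * a i)) = 0 := by
    intro y
    refine ih _ ?_ _ ?_ rfl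
    · rw [← hn]
      refine Finset.card_lt_card ?_
      rw [Finset.ssubset_iff_of_subset]
      · refine ⟨j, by simp [hj], ?_⟩
        simp [hj]
      · intro i hi
        simp only [Finset.mem_filter, Finset.mem_univ, true_and] at hi ⊢
        intro h0
        exact hi (by rw [h0]; simp)
    · intro x
      have h1 : ∑ i, (((a j)⁻¹ * a i) * y - y * ((a j)⁻¹ * a i)) * x * e i
          = ∑ i, ((a j)⁻¹ * a i) * (y * x) * e i
            - y * ∑ i, ((a j)⁻¹ * a i) * x * e i := by
        rw [Finset.mul_sum, ← Finset.sum_sub_distrib]
        refine Finset.sum_congr rfl fun i _ => ?_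
        noncomm_ring
      rw [h1, hb, hb, mul_zero, sub_zero]
  have hcen : ∀ i, ∃ f : F, algebraMap F D f = (a j)⁻¹ * a i := by
    intro i
    have h1 : (a j)⁻¹ * a i ∈ Subalgebra.center F D := by
      rw [Subalgebra.mem_center_iff]
      intro y
      have := congrFun (hc y) i
      simp only [Pi.zero_apply] at this
      exact (sub_eq_zero.1 this).symm
    have h2 := Algebra.IsCentral.out (K := F) (D := D) h1
    obtain ⟨f, hf⟩ := Algebra.mem_bot.1 h2
    exact ⟨f, hf⟩
  choose f hf using hcen
  have h3 : ∑ i, f i • e i = 0 := by
    have := hb 1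
    simp only [mul_one] at this
    rw [← this]
    refine Finset.sum_congr rfl fun i _ => ?_
    rw [Algebra.smul_def, hf]
  have h4 := Fintype.linearIndependent_iff.1 he f h3 j
  have h5 := hf j
  rw [h4, map_zero, inv_mul_cancel₀ hj] at h5
  exact zero_ne_one h5

/-- a field mapping to `D` has degree `≤ d` -/
theorem field_le [FiniteDimensional F D] [Algebra.IsCentral F D] {d : ℕ}
    (hd : Module.finrank F D = d ^ 2) {E : Type*} [Field E] [Algebra F E]
    (φ : E →ₐ[F] D) : Module.finrank F E ≤ d := by
  classical
  have hφ : Function.Injective φ := RingHom.injective (φ : E →+* D)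
  haveI : FiniteDimensional F E := FiniteDimensional.of_injective φ.toLinearMap hφ
  letI : Module E D := Module.compHom D
    ((φ : E →+* D).toOpposite (fun x y => by
      show φ x * φ y = φ y * φ x
      rw [← map_mul, mul_comm, map_mul]))
  have hsm : ∀ (e : E) (x : D), e • x = x * φ e := fun _ _ => rfl
  haveI : IsScalarTower F E D := ⟨fun f e x => by
    rw [hsm, hsm, map_smul, mul_smul_comm]⟩
  haveI : SMulCommClass E F D := ⟨fun e f x => by rw [hsm, hsm, smul_mul_assoc]⟩
  haveI : FiniteDimensional E D := FiniteDimensional.right F E D
  set b := Module.finBasis F E with hb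
  have hind : LinearIndependent F fun i => φ (b i) :=
    b.linearIndependent.map' φ.toLinearMap (LinearMap.ker_eq_bot.2 hφ)
  let T : (Fin (Module.finrank F E) → D) →ₗ[F] (D →ₗ[E] D) :=
    { toFun := fun a =>
        { toFun := fun x => ∑ i, a i * x * φ (b i)
          map_add' := fun x y => by
            rw [← Finset.sum_add_distrib]
            refine Finset.sum_congr rfl fun i _ => ?_
            rw [mul_add, add_mul]
          map_smul' := fun e x => by
            rw [hsm, RingHom.id_apply, hsm, Finset.sum_mul]
            refine Finset.sum_congr rfl fun i _ => ?_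
            rw [← mul_assoc, mul_assoc, ← map_mul, mul_comm e, map_mul, ← mul_assoc] }
      map_add' := fun a a' => by
        ext x
        simp only [LinearMap.coe_mk, AddHom.coe_mk, LinearMap.add_apply, Pi.add_apply]
        rw [← Finset.sum_add_distrib]
        refine Finset.sum_congr rfl fun i _ => ?_
        rw [add_mul, add_mul]
      map_smul' := fun c a => by
        ext x
        simp only [LinearMap.coe_mk, AddHom.coe_mk, LinearMap.smul_apply, Pi.smul_apply,
          RingHom.id_apply]
        rw [Finset.smul_sum]
        refine Finset.sum_congr rfl fun i _ => ?_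
        rw [smul_mul_assoc, smul_mul_assoc] }
  have hT : Function.Injective T := by
    rw [injective_iff_map_eq_zero]
    intro a ha
    refine two_sided_indep hind a fun x => ?_
    have := LinearMap.congr_fun ha x
    exact this
  haveI : IsScalarTower F E (D →ₗ[E] D) := ⟨fun f e g => by
    ext x
    simp only [LinearMap.smul_apply]
    exact smul_assoc f e (g x)⟩
  haveI : FiniteDimensional F (D →ₗ[E] D) := Module.Finite.trans E _
  have h1 := LinearMap.finrank_le_finrank_of_injective hT
  have h2 : Module.finrank F (D →ₗ[E] D)
      = Module.finrank F E * (Module.finrank E D * Module.finrank E D) := by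
    rw [← Module.finrank_mul_finrank F E (D →ₗ[E] D), Module.finrank_linearMap]
  have h3 : Module.finrank F (Fin (Module.finrank F E) → D)
      = Module.finrank F E * Module.finrank F D := by
    rw [Module.finrank_pi_fintype]
    simp
  have h4 := Module.finrank_mul_finrank F E D
  rw [h2, h3] at h1
  have hk : 0 < Module.finrank F E := Module.finrank_pos
  have h5 := Nat.le_of_mul_le_mul_left h1 hk
  rw [hd] at h5 h4
  have h6 : d ≤ Module.finrank E D := by nlinarith
  have hd0 : 0 < d := by
    by_contra h0
    have : d = 0 := by omega
    rw [this] at hd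
    exact absurd hd Module.finrank_pos.ne'
  by_contra hlt
  push Not at hlt
  nlinarith

/-- P3 -/
theorem comm_le [FiniteDimensional F D] [Algebra.IsCentral F D] {d : ℕ}
    (hd : Module.finrank F D = d ^ 2) (x : D) : (minpoly F x).natDegree ≤ d := by
  haveI : Fact (Irreducible (minpoly F x)) := ⟨irreducible_minpoly x⟩
  have hint : IsIntegral F x := Algebra.IsIntegral.isIntegral x
  have h1 := field_le hd (embOf (F := F) x)
  rwa [(AdjoinRoot.powerBasis (minpoly.ne_zero hint)).finrank, AdjoinRoot.powerBasis_dim] at h1

end Pool.Agent.Helper56.BR
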