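import Mathlib
import Pool.Agent.Helper56.BR.Norm

/-!
# The degree of a Teichmueller element
-/

set_option autoImplicit false

namespace Pool.Agent.Helper56.BR

open Polynomial

universe u v w

section

variable {F : Type u} [NontriviallyNormedField F] [IsUltrametricDist F]
  {D : Type v} [DivisionRing D] [Algebra F D]

/-- integral combinations of `1, z, .., z ^ (r - 1)` -/
def IntSp (F : Type u) [NontriviallyNormedField F] {D : Type v} [DivisionRing D] [Algebra F D]
    (z : D) (r : ℕ) (w : D) : Prop :=
  ∃ c : Fin r → F, (∀ i, ‖c i‖ ≤ 1) ∧ w = ∑ i, algebraMap F D (c i) * z ^ (i : ℕ)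

theorem IntSp.zero (z : D) (r : ℕ) : IntSp F z r 0 :=
  ⟨fun _ => 0, fun _ => by simp, by simp⟩

theorem IntSp.add {z : D} {r : ℕ} {a b : D} (ha : IntSp F z r a) (hb : IntSp F z r b) :
    IntSp F z r (a + b) := by
  obtain ⟨c, hc, rfl⟩ := ha
  obtain ⟨c', hc', rfl⟩ := hb
  refine ⟨fun i => c i + c' i, fun i => ?_, ?_⟩
  · exact (IsUltrametricDist.norm_add_le_max _ _).trans (max_le (hc i) (hc' i))
  · rw [← Finset.sum_add_distrib]
    refine Finset.sum_congr rfl fun i _ => ?_
    rw [map_add, add_mul]

theorem IntSp.smul {z : D} {r : ℕ} {a : D} {x : F} (hx : ‖x‖ ≤ 1) (ha : IntSp F z r a) :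
    IntSp F z r (algebraMap F D x * a) := by
  obtain ⟨c, hc, rfl⟩ := ha
  refine ⟨fun i => x * c i, fun i => ?_, ?_⟩
  · rw [norm_mul]
    exact mul_le_one₀ hx (norm_nonneg _) (hc i)
  · rw [Finset.mul_sum]
    refine Finset.sum_congr rfl fun i _ => ?_
    rw [map_mul, mul_assoc]

theorem IntSp.sum {z : D} {r : ℕ} {ι : Type*} (s : Finset ι) {a : ι → D}
    (ha : ∀ i ∈ s, IntSp F z r (a i)) : IntSp F z r (∑ i ∈ s, a i) := by
  classical
  induction s using Finset.induction_on with
  | empty => simpa using IntSp.zero z r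
  | insert i s hi ih =>
    rw [Finset.sum_insert hi]
    exact (ha i (Finset.mem_insert_self i s)).add
      (ih fun j hj => ha j (Finset.mem_insert_of_mem hj))

theorem IntSp.pow_lt {z : D} {r : ℕ} {k : ℕ} (hk : k < r) : IntSp F z r (z ^ k) := by
  classical
  refine ⟨fun i => if (i : ℕ) = k then 1 else 0, fun i => ?_, ?_⟩
  · dsimp only
    split_ifs <;> simp
  · rw [Finset.sum_eq_single ⟨k, hk⟩]
    · simp
    · intro i _ hi
      have : (i : ℕ) ≠ k := fun h => hi (Fin.ext h)
      simp [this]
    · intro h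
      exact absurd (Finset.mem_univ _) h

theorem IntSp.pow [FiniteDimensional F D] {z : D}
    (hg : ∀ n, ‖(minpoly F z).coeff n‖ ≤ 1) (k : ℕ) :
    IntSp F z (minpoly F z).natDegree (z ^ k) := by
  induction k using Nat.strong_induction_on with
  | _ k ih =>
  rcases lt_or_ge k (minpoly F z).natDegree with hk | hk
  · exact IntSp.pow_lt hk
  · have hint : IsIntegral F z := Algebra.IsIntegral.isIntegral z
    have hmon := minpoly.monic hint
    have h0 : aeval z (minpoly F z) = 0 := minpoly.aeval F z
    rw [aeval_eq_sum_range, Finset.sum_range_succ, hmon.coeff_natDegree, one_smul] at h0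
    have h1 : z ^ (minpoly F z).natDegree
        = -∑ i ∈ Finset.range (minpoly F z).natDegree, (minpoly F z).coeff i • z ^ i := by
      rw [eq_neg_iff_add_eq_zero, add_comm]
      exact h0
    have h2 : z ^ k = ∑ i ∈ Finset.range (minpoly F z).natDegree,
        algebraMap F D (-(minpoly F z).coeff i) * z ^ (k - (minpoly F z).natDegree + i) := by
      have h3 : z ^ k = z ^ (k - (minpoly F z).natDegree) * z ^ (minpoly F z).natDegree := by
        rw [← pow_add]
        congr 1
        omega
      rw [h3, h1, mul_neg, Finset.mul_sum, ← Finset.sum_neg_distrib]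
      refine Finset.sum_congr rfl fun i _ => ?_
      rw [map_neg, neg_mul, mul_smul_comm, ← pow_add, Algebra.smul_def]
    rw [h2]
    refine IntSp.sum _ fun i hi => ?_
    rw [Finset.mem_range] at hi
    refine IntSp.smul (by rw [norm_neg]; exact hg i) (ih _ (by omega))

end

section

variable {F : Type u} [NontriviallyNormedField F] [IsUltrametricDist F] [CompleteSpace F]
  {D : Type v} [DivisionRing D] [Algebra F D] [FiniteDimensional F D]

theorem coeff_le_one {z : D} {N : ℕ} (hN : N ≠ 0) (hz : z ^ N = 1) (n : ℕ) :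
    ‖(minpoly F z).coeff n‖ ≤ 1 := by
  haveI : Fact (Irreducible (minpoly F z)) := ⟨irreducible_minpoly z⟩
  have hint : IsIntegral F z := Algebra.IsIntegral.isIntegral z
  haveI : FiniteDimensional F (AdjoinRoot (minpoly F z)) :=
    (AdjoinRoot.powerBasis (minpoly.ne_zero hint)).finite
  have h1 := nu_emb (embOf (F := F) z) (AdjoinRoot.root (minpoly F z))
  rw [embOf_root] at h1
  have h2 : nu F z ^ N = 1 := by
    have h : ∀ k : ℕ, nu F (z ^ k) = nu F z ^ k := by
      intro k
      induction k with
      | zero => rw [pow_zero, pow_zero, nu_one]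
      | succ k ih => rw [pow_succ, pow_succ, nu_mul, ih]
    rw [← h, hz, nu_one]
  have h3 : nu F z = 1 := by
    rcases lt_trichotomy (nu F z) 1 with h | h | h
    · exact absurd h2 (pow_lt_one₀ (nu_nonneg z) h hN).ne
    · exact h
    · exact absurd h2 (one_lt_pow₀ h hN).ne'
  rw [h3] at h1
  have h4 : minpoly F (AdjoinRoot.root (minpoly F z)) = minpoly F z := by
    have := minpoly.algHom_eq (embOf (F := F) z)
      (RingHom.injective (embOf (F := F) z : AdjoinRoot (minpoly F z) →+* D))
      (AdjoinRoot.root (minpoly F z))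
    rw [embOf_root] at this
    exact this.symm
  have h5 : spectralValue (minpoly F z) ≤ 1 := by
    rw [← h4]
    exact h1.symm.le
  exact (spectralValue_le_one_iff (minpoly.monic hint)).1 h5 n

/-- U -/
theorem degree_z {F : Type u} [NontriviallyNormedField F] [IsUltrametricDist F]
    [CompleteSpace F] {q : ℕ} {p : F} (hF : LF F q p) {D : Type v} [DivisionRing D]
    [Algebra F D] [FiniteDimensional F D] {nu : D → ℝ} (hnu : NormOn F nu) {f : ℕ} (hf : 0 < f)
    {z : D} (hz : z ^ (q ^ f - 1) = 1) (hz' : ∀ k : ℕ, nu (z ^ k - 1) < 1 ↔ (q ^ f - 1) ∣ k) :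
    f ≤ (minpoly F z).natDegree := by
  classical
  have hN : q ^ f - 1 ≠ 0 := by
    have := Nat.one_lt_pow hf.ne' hF.one_lt
    omega
  set r := (minpoly F z).natDegree with hr
  obtain ⟨S, hS, hS1, hS2⟩ := hF.res
  have hone : nu 1 = 1 := by
    have := hnu.ext 1
    rwa [map_one, norm_one] at this
  have hneg : ∀ x, nu (-x) = nu x := by
    intro x
    have h1 : nu (-1) = 1 := by
      have := hnu.ext (-1)
      rwa [map_neg, map_one, norm_neg, norm_one] at this
    rw [← neg_one_mul, hnu.mul, h1, one_mul]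
  have hpow : ∀ (x : D) (k : ℕ), nu (x ^ k) = nu x ^ k := by
    intro x k
    induction k with
    | zero => rw [pow_zero, pow_zero, hone]
    | succ k ih => rw [pow_succ, pow_succ, hnu.mul, ih]
  have hz1 : nu z = 1 := by
    have h2 : nu z ^ (q ^ f - 1) = 1 := by rw [← hpow, hz, hone]
    rcases lt_trichotomy (nu z) 1 with h | h | h
    · exact absurd h2 (pow_lt_one₀ (hnu.nonneg z) h hN).ne
    · exact h
    · exact absurd h2 (one_lt_pow₀ h hN).ne'
  have hsub : ∀ a b : D, nu a < 1 → nu b < 1 → nu (a - b) < 1 := by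
    intro a b ha hb
    rw [sub_eq_add_neg]
    refine (hnu.add _ _).trans_lt (max_lt ha ?_)
    rwa [hneg]
  have hsum : ∀ (s : Finset (Fin r)) (t : Fin r → D), (∀ i, nu (t i) < 1) →
      nu (∑ i ∈ s, t i) < 1 := by
    intro s t ht
    induction s using Finset.induction_on with
    | empty =>
      rw [Finset.sum_empty, (hnu.eq_zero 0).2 rfl]
      exact one_pos
    | insert i s hi ih =>
      rw [Finset.sum_insert hi]
      exact (hnu.add _ _).trans_lt (max_lt (ht i) ih)
  -- residues
  have key : ∀ w : D, IntSp F z r w → ∃ s : Fin r → S,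
      nu (w - ∑ i, algebraMap F D (s i : F) * z ^ (i : ℕ)) < 1 := by
    rintro w ⟨c, hc, rfl⟩
    choose s hs hsu using fun i => hS2 (c i) (hc i)
    refine ⟨fun i => ⟨s i, (hs i).1⟩, ?_⟩
    rw [← Finset.sum_sub_distrib]
    refine hsum _ _ fun i => ?_
    rw [← sub_mul, ← map_sub, hnu.mul, hnu.ext, hpow, hz1, one_pow, mul_one]
    exact (hs i).2
  let W : Option (Fin (q ^ f - 1)) → D := fun o => o.elim 0 fun k => z ^ (k : ℕ)
  have hW : ∀ o, IntSp F z r (W o) := by
    intro o
    cases o with
    | none => exact IntSp.zero z r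
    | some k => exact IntSp.pow (fun n => coeff_le_one hN hz n) k
  choose s hs using fun o => key (W o) (hW o)
  have hinj : Function.Injective s := by
    intro o o' h
    have h1 : nu (W o - W o') < 1 := by
      have h2 := hsub _ _ (hs o) (hs o')
      rw [h, sub_sub_sub_cancel_right] at h2
      exact h2
    have hkk : ∀ k k' : Fin (q ^ f - 1), (k : ℕ) ≤ k' → nu (z ^ (k : ℕ) - z ^ (k' : ℕ)) < 1 →
        k = k' := by
      intro k k' hle hlt
      have h3 : z ^ (k : ℕ) - z ^ (k' : ℕ) = -(z ^ (k : ℕ) * (z ^ ((k' : ℕ) - k) - 1)) := by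
        rw [mul_sub, ← pow_add, mul_one, neg_sub]
        congr 2
        omega
      rw [h3, hneg, hnu.mul, hpow, hz1, one_pow, one_mul, hz'] at hlt
      have h4 := k'.2
      have h5 : (k' : ℕ) - k = 0 := Nat.eq_zero_of_dvd_of_lt hlt (by omega)
      exact Fin.ext (by omega)
    cases o with
    | none =>
      cases o' with
      | none => rfl
      | some k' =>
        exfalso
        have h2 : nu (0 - z ^ (k' : ℕ)) < 1 := h1
        rw [zero_sub, hneg, hpow, hz1, one_pow] at h2
        exact lt_irrefl _ h2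
    | some k =>
      cases o' with
      | none =>
        exfalso
        have h2 : nu (z ^ (k : ℕ) - 0) < 1 := h1
        rw [sub_zero, hpow, hz1, one_pow] at h2
        exact lt_irrefl _ h2
      | some k' =>
        congr 1
        have h2 : nu (z ^ (k : ℕ) - z ^ (k' : ℕ)) < 1 := h1
        rcases le_total (k : ℕ) k' with hle | hle
        · exact hkk k k' hle h2
        · refine (hkk k' k hle ?_).symm
          rw [← hneg, neg_sub]
          exact h2
  have hcard := Fintype.card_le_of_injective s hinj
  rw [Fintype.card_option, Fintype.card_fin, Fintype.card_fun, Fintype.card_coe, hS,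
    Fintype.card_fin] at hcard
  have h6 : q ^ f ≤ q ^ r := by omega
  exact (Nat.pow_le_pow_iff_right hF.one_lt).1 h6

end

end Pool.Agent.Helper56.BR
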