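import Mathlib
import Pool.Agent.Helper56.BR.Comm

/-!
# Reduction to division algebras
-/

set_option autoImplicit false

namespace Pool.Agent.Helper56.BR

universe u v w

/-- M -/
theorem rep_matrix {F : Type u} [Field F] {D : Type v} [DivisionRing D] [Algebra F D]
    {L : Type w} [CommRing L] [Algebra F L] {r d : ℕ} (h : Rep F D L d) :
    Rep F (Matrix (Fin r) (Fin r) D) L (r * d) := by
  obtain ⟨φ⟩ := h
  refine ⟨?_⟩
  let e1 : Matrix (Fin r) (Fin r) (Matrix (Fin d) (Fin d) L)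
      ≃ₐ[F] Matrix (Fin r × Fin d) (Fin r × Fin d) L := Matrix.compAlgEquiv (Fin r) (Fin d) L F
  let e2 : Matrix (Fin r × Fin d) (Fin r × Fin d) L
      ≃ₐ[F] Matrix (Fin (r * d)) (Fin (r * d)) L :=
    Matrix.reindexAlgEquiv F L finProdFinEquiv
  exact (e2.toAlgHom.comp e1.toAlgHom).comp φ.mapMatrix

/-- Wedderburn with centrality and dimensions -/
theorem exists_division {F : Type u} [Field F] {A : Type v} [Ring A] [Algebra F A]
    [IsSimpleRing A] [Algebra.IsCentral F A] {m : ℕ} (hm : 0 < m)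
    (hA : Module.finrank F A = m ^ 2) :
    ∃ (r d : ℕ) (D : Type v) (_ : DivisionRing D) (_ : Algebra F D),
      m = r * d ∧ 0 < d ∧ Module.finrank F D = d ^ 2 ∧ FiniteDimensional F D ∧
      Algebra.IsCentral F D ∧ Nonempty (A ≃ₐ[F] Matrix (Fin r) (Fin r) D) := by
  haveI : FiniteDimensional F A :=
    Module.finite_of_finrank_pos (by rw [hA]; positivity)
  haveI : IsArtinianRing A := IsArtinianRing.of_finite F A
  obtain ⟨r, hr, D, i1, i2, i3, ⟨e⟩⟩ :=
    IsSimpleRing.exists_algEquiv_matrix_divisionRing_finite F A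
  have h1 : Module.finrank F A = r ^ 2 * Module.finrank F D := by
    rw [e.toLinearEquiv.finrank_eq, Module.finrank_matrix]
    simp only [Fintype.card_fin]
    ring
  have hr0 : 0 < r := Nat.pos_of_ne_zero hr.out
  have h2 : r ^ 2 ∣ m ^ 2 := ⟨_, by rw [← hA, h1]⟩
  have h3 : r ∣ m := (Nat.pow_dvd_pow_iff (by norm_num)).1 h2
  obtain ⟨d, hd⟩ := h3
  have h4 : Module.finrank F D = d ^ 2 := by
    have h5 : r ^ 2 * Module.finrank F D = r ^ 2 * d ^ 2 := by
      rw [← h1, hA, hd]; ring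
    exact Nat.eq_of_mul_eq_mul_left (by positivity) h5
  have hd0 : 0 < d := by
    rcases Nat.eq_zero_or_pos d with h | h
    · rw [h, mul_zero] at hd; omega
    · exact h
  refine ⟨r, d, D, i1, i2, hd, hd0, h4, i3, ⟨?_⟩, ⟨e⟩⟩
  intro x hx
  rw [Subalgebra.mem_center_iff] at hx
  have h6 : Matrix.scalar (Fin r) x ∈ Subalgebra.center F (Matrix (Fin r) (Fin r) D) := by
    rw [Subalgebra.mem_center_iff]
    intro M
    ext i j
    simp [Matrix.scalar_apply, Matrix.mul_diagonal, Matrix.diagonal_mul, hx]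
  have h7 : e.symm (Matrix.scalar (Fin r) x) ∈ Subalgebra.center F A := by
    rw [Subalgebra.mem_center_iff] at h6 ⊢
    intro a
    apply e.injective
    rw [map_mul, map_mul, AlgEquiv.apply_symm_apply]
    exact h6 (e a)
  have h8 := Algebra.IsCentral.out (K := F) (D := A) h7
  obtain ⟨c, hc⟩ := Algebra.mem_bot.1 h8
  rw [Algebra.mem_bot]
  refine ⟨c, ?_⟩
  have h9 : e (algebraMap F A c) = Matrix.scalar (Fin r) x := by
    rw [hc, AlgEquiv.apply_symm_apply]
  rw [AlgEquiv.commutes] at h9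
  have h10 := congrFun (congrFun h9 ⟨0, hr0⟩) ⟨0, hr0⟩
  simpa [Matrix.algebraMap_matrix_apply] using h10

end Pool.Agent.Helper56.BR
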