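import Mathlib
import Pool.Agent.Helper57.BR.Teich

/-!
# `finrank F D ≤ e * f`
-/

set_option autoImplicit false

namespace Pool.Agent.Helper56.BR

universe u v w

/-- S -/
theorem finrank_le {F : Type u} [NontriviallyNormedField F] [IsUltrametricDist F]
    [CompleteSpace F] {q : ℕ} {p : F} (hF : LF F q p) {D : Type v} [DivisionRing D]
    [Algebra F D] [FiniteDimensional F D] {nu : D → ℝ} (hnu : NormOn F nu)
    {P : D} {e : ℕ} (he : 0 < e) (hP0 : 0 < nu P) (hP1 : nu P < 1) (hPe : nu P ^ e = ‖p‖)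
    (hP : ∀ x : D, x ≠ 0 → ∃ n : ℤ, nu x = nu P ^ n)
    {f : ℕ} (u : Fin f → D) (hu : ∀ i, nu (u i) ≤ 1)
    (hu' : ∀ y : D, nu y ≤ 1 → ∃ c : Fin f → F, (∀ i, ‖c i‖ ≤ 1) ∧
          nu (y - ∑ i, algebraMap F D (c i) * u i) < 1) :
    Module.finrank F D ≤ e * f := by
  classical
  have hone : nu 1 = 1 := Pool.Agent.Helper57.BR.nu_one hnu
  have hpow : ∀ (x : D) (k : ℕ), nu (x ^ k) = nu x ^ k := by
    intro x k
    induction k with
    | zero => rw [pow_zero, pow_zero, hone]
    | succ k ih => rw [pow_succ, pow_succ, hnu.mul, ih]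
  have hinv : ∀ x : D, nu x⁻¹ = (nu x)⁻¹ := by
    intro x
    rcases eq_or_ne x 0 with rfl | hx
    · rw [inv_zero, (hnu.eq_zero 0).2 rfl, inv_zero]
    · have h1 : nu x * nu x⁻¹ = 1 := by rw [← hnu.mul, mul_inv_cancel₀ hx, hone]
      exact eq_inv_of_mul_eq_one_right h1
  have hPne : P ≠ 0 := by
    intro h
    rw [h, (hnu.eq_zero 0).2 rfl] at hP0
    exact lt_irrefl _ hP0
  have hpne : p ≠ 0 := norm_pos_iff.1 hF.pos
  set v : Fin e × Fin f → D := fun ji => u ji.2 * P ^ (ji.1 : ℕ) with hv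
  set S : Submodule F D := Submodule.span F (Set.range v) with hS
  -- approximation
  have happ : ∀ y : D, y ≠ 0 → ∃ s ∈ S, nu (y - s) ≤ nu P * nu y := by
    intro y hy
    obtain ⟨n, hn⟩ := hP y hy
    have he' : (0 : ℤ) < e := by exact_mod_cast he
    obtain ⟨j, hj, hj'⟩ : ∃ j : ℕ, (j : ℤ) = n % e ∧ j < e := by
      refine ⟨(n % e).toNat, Int.toNat_of_nonneg (Int.emod_nonneg _ he'.ne'), ?_⟩
      have h1 := Int.emod_lt_of_pos n he'
      have h2 := Int.emod_nonneg n he'.ne'
      omega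
    set a : ℤ := n / e with ha
    have hna : n = e * a + j := by
      rw [hj, ha]
      exact (Int.mul_ediv_add_emod n e).symm
    have hpa : ‖p ^ a‖ = nu P ^ ((e : ℤ) * a) := by
      rw [norm_zpow, ← hPe, ← zpow_natCast, ← zpow_mul]
    have hpa0 : p ^ a ≠ 0 := zpow_ne_zero _ hpne
    set t : D := P ^ j * algebraMap F D (p ^ a) with ht
    have ht0 : t ≠ 0 := by
      rw [ht]
      refine mul_ne_zero (pow_ne_zero _ hPne) ?_
      rw [Ne, map_eq_zero]
      exact hpa0
    have hnt : nu t = nu P ^ n := by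
      rw [ht, hnu.mul, hpow, hnu.ext, hpa, hna, zpow_add₀ hP0.ne', zpow_natCast, mul_comm]
    have hw : nu (y * t⁻¹) = 1 := by
      rw [hnu.mul, hinv, hnt, hn, mul_inv_cancel₀ (zpow_ne_zero _ hP0.ne')]
    obtain ⟨c, hc, hc'⟩ := hu' (y * t⁻¹) hw.le
    refine ⟨∑ i, (c i * p ^ a) • v (⟨j, hj'⟩, i), ?_, ?_⟩
    · refine Submodule.sum_mem _ fun i _ => Submodule.smul_mem _ _ ?_
      exact Submodule.subset_span ⟨_, rfl⟩
    · have h1 : y - ∑ i, (c i * p ^ a) • v (⟨j, hj'⟩, i)
          = (y * t⁻¹ - ∑ i, algebraMap F D (c i) * u i) * t := by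
        rw [sub_mul, mul_assoc, inv_mul_cancel₀ ht0, mul_one, Finset.sum_mul]
        congr 1
        refine Finset.sum_congr rfl fun i _ => ?_
        rw [hv, ht, Algebra.smul_def, map_mul]
        simp only
        have hc1 := Algebra.commutes (p ^ a) (u i * P ^ j)
        rw [mul_assoc, hc1]
        simp only [mul_assoc]
      rw [h1, hnu.mul, hnt, hn]
      rcases eq_or_ne (y * t⁻¹ - ∑ i, algebraMap F D (c i) * u i) 0 with h0 | h0
      · rw [h0, (hnu.eq_zero 0).2 rfl, zero_mul]
        exact mul_nonneg hP0.le (zpow_nonneg hP0.le _)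
      · obtain ⟨k, hk⟩ := hP _ h0
        rw [hk] at hc' ⊢
        have hk1 : 1 ≤ k := by
          by_contra hlt
          push Not at hlt
          have h3 : nu P ^ (0 : ℤ) ≤ nu P ^ k :=
            zpow_le_zpow_right_of_le_one₀ hP0 hP1.le (by omega)
          rw [zpow_zero] at h3
          linarith
        refine mul_le_mul_of_nonneg_right ?_ (zpow_nonneg hP0.le _)
        have h4 := zpow_le_zpow_right_of_le_one₀ hP0 hP1.le hk1
        rwa [zpow_one] at h4
  -- the span is everything
  have htop : S = ⊤ := by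
    letI := Pool.Agent.Helper57.BR.nd hnu
    letI : NormedSpace F D :=
      { (Algebra.toModule : Module F D) with
        norm_smul_le := fun c x => by
          change nu (c • x) ≤ ‖c‖ * nu x
          rw [Algebra.smul_def, hnu.mul, hnu.ext] }
    have hcl : IsClosed (S : Set D) := Submodule.closed_of_finiteDimensional S
    rw [Submodule.eq_top_iff']
    intro x
    by_contra hx
    have hne : (S : Set D).Nonempty := ⟨0, S.zero_mem⟩
    have hpos : 0 < Metric.infDist x S := (hcl.notMem_iff_infDist_pos hne).1 hx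
    have hlt : Metric.infDist x S < Metric.infDist x S / nu P := by
      rw [lt_div_iff₀ hP0]
      exact mul_lt_of_lt_one_right hpos hP1
    obtain ⟨s0, hs0, hs0'⟩ := (Metric.infDist_lt_iff hne).1 hlt
    have h1 : nu (x - s0) < Metric.infDist x S / nu P := hs0'
    have hy : x - s0 ≠ 0 := by
      intro h
      rw [sub_eq_zero] at h
      exact hx (h ▸ hs0)
    obtain ⟨s, hs, hs'⟩ := happ _ hy
    have h2 : Metric.infDist x S ≤ dist x (s0 + s) :=
      Metric.infDist_le_dist_of_mem (S.add_mem hs0 hs)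
    have h3 : dist x (s0 + s) = nu (x - s0 - s) := by
      change nu (x - (s0 + s)) = _
      rw [sub_sub]
    rw [h3] at h2
    have h4 : nu P * nu (x - s0) < Metric.infDist x S := by
      rw [lt_div_iff₀ hP0] at h1
      linarith
    linarith
  have hfin : Module.finrank F D = Module.finrank F S := by
    rw [htop, finrank_top]
  rw [hfin, hS]
  refine (finrank_range_le_card v).trans ?_
  rw [Fintype.card_prod, Fintype.card_fin, Fintype.card_fin]

end Pool.Agent.Helper56.BR
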