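import Mathlib
import Pool.Agent.Helper56.BR.Mat
import Pool.Agent.Helper56.BR.DegZ
import Pool.Agent.Helper56.BR.Span
import Pool.Agent.Helper57.BR.Teich
import Pool.Agent.Helper57.BR.Root
import Pool.Agent.Helper57.BR.Res
import Pool.Agent.Helper57.BR.Unif
import Pool.Agent.Helper44.BR.RepRoot

/-!
# Local splitting: a central simple algebra of dimension `m ^ 2` over a complete discretely
valued field with finite residue field is split by every complete extension whose residue degree
is divisible by `m`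
-/

set_option autoImplicit false

namespace Pool.Agent.Helper56.BR

universe u v w

/-- FINAL: local splitting -/
theorem local_split {F : Type u} [NontriviallyNormedField F] [IsUltrametricDist F]
    [CompleteSpace F] {q : ℕ} {p : F} (hF : LF F q p)
    {L : Type w} [NontriviallyNormedField L] [IsUltrametricDist L] [CompleteSpace L]
    {q' : ℕ} {p' : L} (hL : LF L q' p') [Algebra F L] {m f : ℕ} (hm : 0 < m)
    (hmf : m ∣ f) (_hf : 0 < f) (hq' : q' = q ^ f) {A : Type v} [Ring A] [Algebra F A]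
    [IsSimpleRing A] [Algebra.IsCentral F A] (hA : Module.finrank F A = m ^ 2) :
    Rep F A L m := by
  obtain ⟨r, d, D, i1, i2, hrd, hd0, hD, i3, i4, ⟨e⟩⟩ := exists_division hm hA
  have hnu : NormOn F (nu F (D := D)) := normOn
  obtain ⟨g, hg0, ⟨a, ha1, ha⟩, u, hu1, hu⟩ := Pool.Agent.Helper57.BR.residue hF hnu
  obtain ⟨P, n, hn0, hP0, hP1, hPn, hP, hdegP⟩ := Pool.Agent.Helper57.BR.uniformizer hF hnu
  have h1 := finrank_le hF hnu hn0 hP0 hP1 hPn hP u hu1 hu
  have h2 : n ≤ d := hdegP.trans (comm_le hD P)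
  obtain ⟨z, hz, hz'⟩ := Pool.Agent.Helper57.BR.teich_D hF hnu hg0 ha1 ha
  have h3 : g ≤ (minpoly F z).natDegree := degree_z hF hnu hg0 hz hz'
  have h4 : (minpoly F z).natDegree ≤ d := comm_le hD z
  have h5 : g = d := by
    rw [hD] at h1
    refine le_antisymm (h3.trans h4) ?_
    by_contra hlt
    push Not at hlt
    nlinarith
  subst h5
  have hdeg : (minpoly F z).natDegree = g := le_antisymm h4 h3
  have hN : 0 < q ^ g - 1 := by
    have := Nat.one_lt_pow hg0.ne' hF.one_lt
    omega
  obtain ⟨y0, hy0⟩ := Pool.Agent.Helper57.BR.exists_root hL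
  have hgf : g ∣ f := (Dvd.intro_left r hrd.symm).trans hmf
  have hNN : (q ^ g - 1) ∣ (q' - 1) := by
    rw [hq']
    exact Nat.pow_sub_one_dvd_pow_sub_one q hgf
  obtain ⟨c, hc⟩ := hNN
  have hq1 : 0 < q' - 1 := by
    have := hL.one_lt
    omega
  have hy : IsPrimitiveRoot (y0 ^ c) (q ^ g - 1) := by
    refine hy0.pow hq1 ?_
    rw [hc, mul_comm]
  have hrep : Rep F D L g := Pool.Agent.Helper44.BR.rep_of_root hD hN hz hdeg hy
  obtain ⟨φ⟩ := rep_matrix (r := r) hrep
  rw [hrd]
  exact ⟨φ.comp e.toAlgHom⟩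

end Pool.Agent.Helper56.BR
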